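import Pool.Agent.H98.EX.BTargets
import Pool.Agent.H98.SLN.INR

/-!
# Row LKX (MP_65efe8_pr, exact constant as `α → 1`): the links of the base
-/

set_option autoImplicit false

open MeasureTheory ProbabilityTheory Filter Topology
open scoped ENNReal
open Pool.Agent.H95 Pool.Agent.H95.Cop
open Pool.Agent.H55.CG (Mo)
open Pool.Agent.H96.Cop (ex pk Wn chargeLaw)
open Pool.Agent.H99.CE (NX w0 w1 BX CT TT Cc Gf lg tb Reg)
open Pool.Agent.H98.SLN (RG gl TS)
open Pool.Agent.H98.EX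

namespace Pool.Agent.H52.EX

/-- the gap -/
private noncomputable def mm (i : ℕ) : ℝ := ((max i 1 : ℕ) : ℝ)

private lemma mm_one (i : ℕ) : 1 ≤ mm i := by
  unfold mm
  exact_mod_cast le_max_right i 1

private lemma mm_pos (i : ℕ) : 0 < mm i := lt_of_lt_of_le one_pos (mm_one i)

private lemma mm_inv (i : ℕ) : (mm i)⁻¹ ≤ 1 := inv_le_one_of_one_le₀ (mm_one i)

private lemma mm_succ (i : ℕ) : mm (i + 1) = i + 1 := by
  unfold mm
  rw [max_eq_left (by omega)]
  push_cast
  ring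

private lemma lkx_sh (f : ℕ → ℝ) (n : ℕ) :
    ∑ D ∈ Finset.Icc 1 n, f (D - 1) = ∑ i ∈ Finset.range n, f i := by
  induction n with
  | zero => simp
  | succ n ih =>
    rw [Finset.sum_Icc_succ_top (by omega), Finset.sum_range_succ, ih]
    simp

private lemma lkx_h (n : ℕ) (hn : 1 ≤ n) :
    ∑ i ∈ Finset.range n, (mm i)⁻¹ ≤ 2 + Real.log n := by
  obtain ⟨m, rfl⟩ : ∃ m, n = m + 1 := ⟨n - 1, by omega⟩
  rw [Finset.sum_range_succ']
  have h1 : ∑ i ∈ Finset.range m, (mm (i + 1))⁻¹ = ((harmonic m : ℚ) : ℝ) := by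
    unfold harmonic
    push_cast
    refine Finset.sum_congr rfl fun i _ => ?_
    rw [mm_succ]
  have h2 := harmonic_le_one_add_log m
  have h3 : Real.log m ≤ Real.log ((m + 1 : ℕ) : ℝ) := by
    rcases Nat.eq_zero_or_pos m with rfl | hm
    · simp
    · apply Real.log_le_log (by exact_mod_cast hm)
      push_cast
      linarith
  have h4 := mm_inv 0
  rw [h1]
  linarith

private lemma lkx_y {y : ℝ} (hy0 : 0 ≤ y) (hy1 : y < 1) (n : ℕ) :
    ∑ i ∈ Finset.range n, (mm i)⁻¹ * y ^ i ≤ 1 - Real.log (1 - y) := by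
  have hs := Real.hasSum_pow_div_log_of_abs_lt_one (x := y) (by rw [abs_of_nonneg hy0]; exact hy1)
  have h1 : ∀ m : ℕ, ∑ i ∈ Finset.range m, y ^ (i + 1) / ((i : ℝ) + 1) ≤ -Real.log (1 - y) :=
    fun m => sum_le_hasSum _ (fun i _ => by positivity) hs
  rcases Nat.eq_zero_or_pos n with rfl | hn
  · simp only [Finset.range_zero, Finset.sum_empty]
    have := h1 0
    simp only [Finset.range_zero, Finset.sum_empty] at this
    linarith
  · obtain ⟨m, rfl⟩ : ∃ m, n = m + 1 := ⟨n - 1, by omega⟩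
    rw [Finset.sum_range_succ']
    have h2 : ∑ i ∈ Finset.range m, (mm (i + 1))⁻¹ * y ^ (i + 1) =
        ∑ i ∈ Finset.range m, y ^ (i + 1) / ((i : ℝ) + 1) := by
      refine Finset.sum_congr rfl fun i _ => ?_
      rw [mm_succ, div_eq_inv_mul]
    have h3 := h1 m
    have h4 := mm_inv 0
    rw [h2, pow_zero, mul_one]
    linarith

private lemma lkx_g {y : ℝ} (hy0 : 0 ≤ y) (hy1 : y < 1) (n : ℕ) :
    ∑ i ∈ Finset.range n, y ^ i ≤ (1 - y)⁻¹ := by
  have h := hasSum_geometric_of_lt_one hy0 hy1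
  exact sum_le_hasSum _ (fun i _ => pow_nonneg hy0 i) h

private lemma lkx_two (D : ℕ) (hD : 1 ≤ D) : (D : ℝ) * (mm (D - 1))⁻¹ ≤ 2 := by
  rw [← div_eq_mul_inv, div_le_iff₀ (mm_pos _)]
  unfold mm
  have : D ≤ 2 * max (D - 1) 1 := by omega
  exact_mod_cast this

theorem pf_LKX (hULK : Pool.Agent.H98.SLN.T_ULK) : T_LKX := by
  intro K ν α c δ r ϑ ε τ ω s k q hBC n0 hn0
  have hRG := hBC.rx.rg
  have hU := (hULK K α c δ k q hRG).1
  have hν := hBC.eg.prob
  have hc0 := hRG.c0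
  have hϑ0 := hBC.ϑ0
  have hϑ1 := hBC.ϑ1
  have hk1 : 1 ≤ k := by
    by_contra h
    have hk : k = 0 := by omega
    have := hBC.kϑ
    rw [hk] at this
    norm_num at this
  have hk0 : (0 : ℝ) < k := by exact_mod_cast (by omega : 0 < k)
  refine ⟨?_, fun D m hD hkm h1 h2 => hU D m hD hkm h1 h2, ?_⟩
  · intro D m hD hkm hm h1 h2
    have hDn : D ≤ n0 := by
      have h3 : (D - 1) * k < n0 * k := lt_of_lt_of_le h1 hm
      have h4 : D - 1 < n0 := lt_of_mul_lt_mul_right h3 (Nat.zero_le k)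
      omega
    unfold gx
    rw [if_pos hDn]
    exact hU D m hD hkm h1 h2
  · intro θ hθ1 hθ2 hθα n
    have hθ0 : 0 < θ := by linarith
    set A : ℝ := (c * (k : ℝ) ^ (-(1 + α))) ^ θ with hA
    have hck : 0 ≤ c * (k : ℝ) ^ (-(1 + α)) := mul_nonneg hc0.le (Real.rpow_nonneg hk0.le _)
    have hA0 : 0 ≤ A := Real.rpow_nonneg hck _
    set y : ℝ := Real.exp (-(ϑ / 8)) with hy
    have hy0 : 0 < y := Real.exp_pos _
    have hx : 0 < ϑ / 8 := by positivity
    have hx1 : ϑ / 8 ≤ 1 / 2 := by linarith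
    have hy2 : ϑ / 16 ≤ 1 - y := by
      have h1 : y ≤ 1 - ϑ / 8 + (ϑ / 8) ^ 2 := by
        have h2 := Real.add_one_le_exp (ϑ / 8)
        have h3 : y = (Real.exp (ϑ / 8))⁻¹ := by rw [hy, Real.exp_neg]
        have h4 : y ≤ (1 + ϑ / 8)⁻¹ := by
          rw [h3]
          exact inv_anti₀ (by positivity) (by linarith)
        refine h4.trans ?_
        rw [inv_le_iff_one_le_mul₀ (by positivity)]
        nlinarith [pow_pos hx 3]
      nlinarith
    have hy1 : y < 1 := by
      have : 0 < ϑ / 16 := by positivity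
      linarith
    have hylog : -Real.log (1 - y) ≤ Real.log (16 / ϑ) := by
      rw [← Real.log_inv]
      apply Real.log_le_log (by
        rw [inv_pos]
        linarith)
      rw [inv_le_comm₀ (by linarith) (by positivity), inv_div]
      exact hy2
    -- the Laplace transform
    have hMo : ∀ i : ℕ, ∫⁻ x, ex 0 (i * k) x ^ θ ∂(iid ν) ≤ ENNReal.ofReal (y ^ i) := by
      intro i
      rw [(Pool.Agent.H98.SLN.pf_EXM ν hBC.eg.exp θ (i * k) hθ0.le).1]
      apply ENNReal.ofReal_le_ofReal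
      rw [mul_comm i k, pow_mul]
      have hMo0 : 0 ≤ Mo ν θ ^ k := by
        apply pow_nonneg
        unfold Mo
        exact integral_nonneg fun z => (Real.exp_pos _).le
      apply pow_le_pow_left₀ hMo0
      have h1 := hBC.eg.up θ (by rw [abs_of_pos hθ0]; linarith)
      refine h1.trans ?_
      rw [hy]
      apply Real.exp_le_exp.2
      have hτ : τ ≤ ϑ / 64 := by
        have h2 := hBC.τω
        have h3 := hBC.ω0
        have h4 := hBC.ω1
        have h5 : ω ^ 2 ≤ 1 := pow_le_one₀ h3.le h4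
        have h6 : ω ^ 2 * ϑ ≤ 1 * ϑ := mul_le_mul_of_nonneg_right h5 hϑ0.le
        have h7 : ω ^ 2 * ϑ / 2 ^ 10 ≤ 1 * ϑ / 2 ^ 10 := div_le_div_of_nonneg_right h6 (by positivity)
        have h8 : (1 : ℝ) * ϑ / 2 ^ 10 = ϑ / 1024 := by norm_num
        rw [h8] at h7
        linarith
      have hε := hBC.ε0
      have h9 : 2 * θ ^ 2 - 2 * θ * (3 / 4 + ε) ≤ -(5 / 32) := by
        have e1 : 0 ≤ θ * ε := mul_nonneg hθ0.le hε
        nlinarith [mul_nonneg (by linarith : (0 : ℝ) ≤ θ - 1 / 2) (by linarith : (0 : ℝ) ≤ 5 / 8 - θ)]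
      have h10 : ϑ * (2 * θ ^ 2 - 2 * θ * (3 / 4 + ε)) ≤ ϑ * (-(5 / 32)) :=
        mul_le_mul_of_nonneg_left h9 hϑ0.le
      linarith
    -- the links
    have hgl : ∀ D : ℕ, ENNReal.ofReal (gl α c k D) ^ θ ≤ ENNReal.ofReal (A * (mm (D - 1))⁻¹) := by
      intro D
      have hm1 := mm_one (D - 1)
      have hm0 := mm_pos (D - 1)
      have e1 : gl α c k D = (c * (k : ℝ) ^ (-(1 + α))) * mm (D - 1) ^ (-(1 + α)) := by
        unfold gl mm
        rw [Real.mul_rpow hk0.le (Nat.cast_nonneg _), mul_assoc]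
      have hgl0 : 0 ≤ gl α c k D := by
        rw [e1]
        exact mul_nonneg hck (Real.rpow_nonneg hm0.le _)
      rw [ENNReal.ofReal_rpow_of_nonneg hgl0 hθ0.le, e1,
        Real.mul_rpow hck (Real.rpow_nonneg hm0.le _), ← Real.rpow_mul hm0.le]
      apply ENNReal.ofReal_le_ofReal
      apply mul_le_mul_of_nonneg_left _ hA0
      rw [← Real.rpow_neg_one]
      apply Real.rpow_le_rpow_of_exponent_le hm1
      linarith
    have hterm : ∀ D ∈ Finset.Icc 1 n,
        gx α c k n0 D ^ θ + gy α c k D ^ θ * ∫⁻ x, ex 0 ((D - 1) * k) x ^ θ ∂(iid ν) ≤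
        ENNReal.ofReal (A * ((if D ≤ n0 then (mm (D - 1))⁻¹ else 0) +
          (mm (D - 1))⁻¹ * y ^ (D - 1))) := by
      intro D _
      have hi0 : 0 ≤ (mm (D - 1))⁻¹ := (inv_pos.2 (mm_pos _)).le
      have h1 : gx α c k n0 D ^ θ ≤
          ENNReal.ofReal (A * (if D ≤ n0 then (mm (D - 1))⁻¹ else 0)) := by
        unfold gx
        split_ifs
        · exact hgl D
        · rw [ENNReal.zero_rpow_of_pos hθ0]
          exact zero_le
      have h2 : gy α c k D ^ θ * ∫⁻ x, ex 0 ((D - 1) * k) x ^ θ ∂(iid ν) ≤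
          ENNReal.ofReal (A * (mm (D - 1))⁻¹) * ENNReal.ofReal (y ^ (D - 1)) :=
        mul_le_mul' (hgl D) (hMo (D - 1))
      rw [← ENNReal.ofReal_mul (mul_nonneg hA0 hi0)] at h2
      refine (add_le_add h1 h2).trans ?_
      rw [← ENNReal.ofReal_add (mul_nonneg hA0 (by split_ifs; exacts [hi0, le_rfl]))
        (mul_nonneg (mul_nonneg hA0 hi0) (pow_nonneg hy0.le _))]
      apply ENNReal.ofReal_le_ofReal
      rw [mul_add, mul_assoc]
    have hnn : ∀ D : ℕ, 0 ≤ A * ((if D ≤ n0 then (mm (D - 1))⁻¹ else 0) +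
        (mm (D - 1))⁻¹ * y ^ (D - 1)) := by
      intro D
      have hi0 : 0 ≤ (mm (D - 1))⁻¹ := (inv_pos.2 (mm_pos _)).le
      refine mul_nonneg hA0 (add_nonneg (by split_ifs; exacts [hi0, le_rfl])
        (mul_nonneg hi0 (pow_nonneg hy0.le _)))
    have hsub : ∀ f : ℕ → ℝ, (∀ D, 0 ≤ f D) →
        ∑ D ∈ Finset.Icc 1 n, (if D ≤ n0 then f D else 0) ≤ ∑ D ∈ Finset.Icc 1 n0, f D := by
      intro f hf
      rw [← Finset.sum_filter]
      apply Finset.sum_le_sum_of_subset_of_nonneg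
      · intro D hD
        rw [Finset.mem_filter, Finset.mem_Icc] at hD
        rw [Finset.mem_Icc]
        exact ⟨hD.1.1, hD.2⟩
      · intro D _ _
        exact hf D
    constructor
    · refine (Finset.sum_le_sum hterm).trans ?_
      rw [← ENNReal.ofReal_sum_of_nonneg (fun D _ => hnn D), ← Finset.mul_sum]
      apply ENNReal.ofReal_le_ofReal
      apply mul_le_mul_of_nonneg_left _ hA0
      rw [Finset.sum_add_distrib]
      have h1 := hsub (fun D => (mm (D - 1))⁻¹) (fun D => (inv_pos.2 (mm_pos _)).le)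
      have h2 := lkx_sh (fun i => (mm i)⁻¹) n0
      have h3 := lkx_h n0 hn0
      have h4 := lkx_sh (fun i => (mm i)⁻¹ * y ^ i) n
      have h5 := lkx_y hy0.le hy1 n
      unfold La
      linarith
    · have hterm2 : ∀ D ∈ Finset.Icc 1 n, (D : ℝ≥0∞) *
          (gx α c k n0 D ^ θ + gy α c k D ^ θ * ∫⁻ x, ex 0 ((D - 1) * k) x ^ θ ∂(iid ν)) ≤
          ENNReal.ofReal (A * ((if D ≤ n0 then 2 else 0) + 2 * y ^ (D - 1))) := by
        intro D hD
        have hD1 := (Finset.mem_Icc.1 hD).1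
        refine (mul_le_mul_of_nonneg_left (hterm D hD) zero_le).trans ?_
        rw [← ENNReal.ofReal_natCast, ← ENNReal.ofReal_mul (Nat.cast_nonneg _)]
        apply ENNReal.ofReal_le_ofReal
        have h1 := lkx_two D hD1
        have h2 : (D : ℝ) * (A * ((if D ≤ n0 then (mm (D - 1))⁻¹ else 0) +
            (mm (D - 1))⁻¹ * y ^ (D - 1))) =
            A * ((if D ≤ n0 then D * (mm (D - 1))⁻¹ else 0) +
              D * (mm (D - 1))⁻¹ * y ^ (D - 1)) := by
          split_ifs <;> ring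
        rw [h2]
        apply mul_le_mul_of_nonneg_left _ hA0
        apply add_le_add
        · split_ifs
          · exact h1
          · exact le_rfl
        · exact mul_le_mul_of_nonneg_right h1 (pow_nonneg hy0.le _)
      refine (Finset.sum_le_sum hterm2).trans ?_
      rw [← ENNReal.ofReal_sum_of_nonneg (fun D _ => mul_nonneg hA0
        (add_nonneg (by split_ifs <;> norm_num) (mul_nonneg zero_le_two (pow_nonneg hy0.le _)))),
        ← Finset.mul_sum]
      apply ENNReal.ofReal_le_ofReal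
      apply mul_le_mul_of_nonneg_left _ hA0
      rw [Finset.sum_add_distrib, ← Finset.mul_sum]
      have h1 := hsub (fun _ => 2) (fun _ => zero_le_two)
      rw [Finset.sum_const, Nat.card_Icc, nsmul_eq_mul] at h1
      have h1' : (((n0 + 1 - 1 : ℕ) : ℝ)) * 2 = 2 * n0 := by
        rw [Nat.add_sub_cancel]
        ring
      rw [h1'] at h1
      have h4 := lkx_sh (fun i => y ^ i) n
      have h5 := lkx_g hy0.le hy1 n
      have h6 : (1 - y)⁻¹ ≤ 16 / ϑ := by
        rw [inv_le_comm₀ (by linarith) (by positivity), inv_div]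
        exact hy2
      have h7 : 2 * (16 / ϑ) ≤ 40 / ϑ := by
        rw [← mul_div_assoc]
        exact div_le_div_of_nonneg_right (by norm_num) hϑ0.le
      linarith

end Pool.Agent.H52.EX
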